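import Mathlib

set_option autoImplicit false

/-!
# Decomposition of an integer by the exponents of its primes, and boxes of abc-triples

`cls v = min v 5` is the class of an exponent. For a set `S` of classes, `part S n` is the unitary
divisor of `n` made of the primes of `n` whose exponent has class in `S`, `rpart S n` is its
radical and `rootp j S n` is its `j`-th root (when every exponent in question is divisible by `j`).
-/

namespace Pool.Agent.Helper92.ABC

open Finset

/-- The class of an exponent: `1, 2, 3, 4` are exact, `5` means at least `5`. -/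
def cls (v : ℕ) : ℕ := min v 5

/-- The primes of `n` whose exponent has its class in `S`. -/
def prs (S : Finset ℕ) (n : ℕ) : Finset ℕ :=
  n.primeFactors.filter (fun p => cls (n.factorization p) ∈ S)

/-- The part of `n` made of the primes with exponent class in `S`. -/
def part (S : Finset ℕ) (n : ℕ) : ℕ := ∏ p ∈ prs S n, p ^ n.factorization p

/-- The radical of `part S n`. -/
def rpart (S : Finset ℕ) (n : ℕ) : ℕ := ∏ p ∈ prs S n, p

/-- The `j`-th root of `part S n`. -/
def rootp (j : ℕ) (S : Finset ℕ) (n : ℕ) : ℕ := ∏ p ∈ prs S n, p ^ (n.factorization p / j)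

/-- The radical. -/
def radn (n : ℕ) : ℕ := ∏ p ∈ n.primeFactors, p

/-- The coordinates of `n`: for `i ≤ 5` the product of the primes of class `i`, and for `i = 6` the
excess of the `5`-full part over the fifth power of its radical. -/
def coord (n i : ℕ) : ℕ := if i = 6 then part {5} n / rpart {5} n ^ 5 else rpart {i} n

/-- The three numbers of a triple given by `(a, b)`. -/
def num (t : ℕ × ℕ) : Fin 3 → ℕ := ![t.1, t.2, t.1 + t.2]

/-- All classes. -/
def full : Finset ℕ := Finset.Icc 1 5

/-- Logarithmic size (in base `Z`, given the levels `k i`) of `rootp j S`; `j = 1` gives the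
size of `part S`. -/
def rc (j : ℕ) (S : Finset ℕ) (k : ℕ → ℕ) : ℕ :=
  ∑ i ∈ S, (i / j) * k i + if 5 ∈ S then k 6 else 0

/-- Upper logarithmic size of `rpart S`. -/
def wt (S : Finset ℕ) (k : ℕ → ℕ) : ℕ := ∑ i ∈ S, (k i + 1)

open scoped Classical in
/-- The coprime pairs `(a, b)` with `a + b ≤ Z ^ Q` whose coordinates have the levels `k`. -/
noncomputable def Box (Z Q : ℕ) (k : Fin 3 → ℕ → ℕ) : Finset (ℕ × ℕ) :=
  (Finset.Icc 1 (Z ^ Q) ×ˢ Finset.Icc 1 (Z ^ Q)).filter (fun t =>
    t.1.Coprime t.2 ∧ t.1 + t.2 ≤ Z ^ Q ∧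
      ∀ n : Fin 3, ∀ i ∈ Finset.Icc 1 6, Nat.log Z (coord (num t n) i) = k n i)

end Pool.Agent.Helper92.ABC
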