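import Mathlib
import Pool.Agent.Helper92.ABC.Defs

set_option autoImplicit false

/-!
# A checker for branch and bound certificates

Variables are the levels `k n i` (`n = 0, 1, 2`, `i = 1, …, 6`) in the order
`k 0 1, …, k 0 6, k 1 1, …, k 2 6`. A form is the list of its coefficients. A constraint `(f, b)`
means `b ≤ f · x`.
-/

namespace Pool.Agent.Helper92.ABC

open Finset

/-- Scalar product of lists. -/
def dot : List ℤ → List ℤ → ℤ
  | a :: f, b :: x => a * b + dot f x
  | _, _ => 0

/-- Sum of lists, of the length of the longer. -/
def addL : List ℤ → List ℤ → List ℤ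
  | a :: f, b :: g => (a + b) :: addL f g
  | [], g => g
  | f, [] => f

/-- Scalar multiple. -/
def smulL (c : ℤ) : List ℤ → List ℤ
  | a :: f => c * a :: smulL c f
  | [] => []

/-- All coefficients nonpositive. -/
def nonposL : List ℤ → Bool
  | a :: f => decide (a ≤ 0) && nonposL f
  | [] => true

lemma dot_nil (x : List ℤ) : dot [] x = 0 := by
  cases x <;> rfl

lemma dot_addL (f g x : List ℤ) : dot (addL f g) x = dot f x + dot g x := by
  induction f generalizing g x with
  | nil => cases g <;> cases x <;> simp [addL, dot]
  | cons a f ih =>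
    cases g with
    | nil => cases x <;> simp [addL, dot]
    | cons b g =>
      cases x with
      | nil => simp [addL, dot]
      | cons y x => simp only [addL, dot, ih]; ring

lemma dot_smulL (c : ℤ) (f x : List ℤ) : dot (smulL c f) x = c * dot f x := by
  induction f generalizing x with
  | nil => simp [smulL, dot_nil]
  | cons a f ih =>
    cases x with
    | nil => simp [smulL, dot]
    | cons y x => simp only [smulL, dot, ih]; ring

lemma dot_nonpos (f x : List ℤ) (hf : nonposL f = true) (hx : ∀ y ∈ x, 0 ≤ y) :
    dot f x ≤ 0 := by
  induction f generalizing x with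
  | nil => simp [dot_nil]
  | cons a f ih =>
    cases x with
    | nil => simp [dot]
    | cons y x =>
      simp only [nonposL, Bool.and_eq_true, decide_eq_true_eq] at hf
      simp only [dot]
      have h1 : 0 ≤ y := hx y (by simp)
      have h2 := ih x hf.2 (fun z hz => hx z (by simp [hz]))
      nlinarith [hf.1]

/-- A constraint `(f, b)`: `b ≤ f · x`. -/
abbrev Con := List ℤ × ℤ

/-- The combination of the constraints with the multipliers encoded in base `2 ^ 24` in `m`. -/
def comb : List Con → ℕ → Con
  | c :: cs, m =>
    let r := comb cs (m / 16777216)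
    let l : ℤ := ((m % 16777216 : ℕ) : ℤ)
    (addL (smulL l c.1) r.1, l * c.2 + r.2)
  | [], _ => ([], 0)

lemma comb_le (cs : List Con) (m : ℕ) (x : List ℤ) (h : ∀ c ∈ cs, c.2 ≤ dot c.1 x) :
    (comb cs m).2 ≤ dot (comb cs m).1 x := by
  induction cs generalizing m with
  | nil => simp [comb, dot_nil]
  | cons c cs ih =>
    simp only [comb, dot_addL, dot_smulL]
    have h1 := h c (by simp)
    have h2 := ih (m / 16777216) (fun d hd => h d (by simp [hd]))
    have h3 : (0 : ℤ) ≤ ((m % 16777216 : ℕ) : ℤ) := by positivity
    have h4 := mul_le_mul_of_nonneg_left h1 h3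
    linarith

/-- A leaf is closed if the combination has nonpositive coefficients and a positive bound. -/
def leafOK (cs : List Con) (m : ℕ) : Bool :=
  let r := comb cs m
  nonposL r.1 && decide (0 < r.2)

lemma leafOK_false (cs : List Con) (m : ℕ) (hm : leafOK cs m = true) (x : List ℤ)
    (hx : ∀ y ∈ x, 0 ≤ y) (h : ∀ c ∈ cs, c.2 ≤ dot c.1 x) : False := by
  simp only [leafOK, Bool.and_eq_true, decide_eq_true_eq] at hm
  have h1 := comb_le cs m x h
  have h2 := dot_nonpos _ x hm.1 hx
  linarith [hm.2]

/-- Certificate trees over a type of codes. `node c t` opens the tool `c`; then a chain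
`br t₁ (br t₂ … nil)` treats its forms one after the other. -/
inductive Tree (α : Type) where
  | leaf (m : ℕ)
  | node (c : α) (t : Tree α)
  | br (t r : Tree α)
  | nil

/-- The check. `T` is the bound for the forms, `forms c` the forms of the tool `c`, `ok c` its
side conditions, `cs` the constraints on the present branch and `pend` the forms of the last tool
still pending (`none` when a leaf or a node must follow). -/
def check {α : Type} (forms : α → List (List ℤ)) (ok : α → Bool) (T : ℤ) :
    List Con → Option (List (List ℤ)) → Tree α → Bool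
  | cs, _, .leaf m => leafOK cs m
  | cs, _, .node c t => ok c && check forms ok T cs (some (forms c)) t
  | cs, some (f :: fs), .br t r =>
    check forms ok T ((f, T + 1) :: cs) none t && check forms ok T cs (some fs) r
  | _, some [], .nil => true
  | _, _, _ => false

/-- Some valid tool has all its forms at most `T`. -/
def Good {α : Type} (forms : α → List (List ℤ)) (ok : α → Bool) (T : ℤ) (x : List ℤ) : Prop :=
  ∃ c : α, ok c = true ∧ ∀ f ∈ forms c, dot f x ≤ T

lemma check_sound {α : Type} (forms : α → List (List ℤ)) (ok : α → Bool) (T : ℤ)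
    (t : Tree α) (cs : List Con) (pend : Option (List (List ℤ)))
    (h : check forms ok T cs pend t = true)
    (x : List ℤ) (hx : ∀ y ∈ x, 0 ≤ y) (hc : ∀ c ∈ cs, c.2 ≤ dot c.1 x) :
    Good forms ok T x ∨ ∃ l, pend = some l ∧ ∀ f ∈ l, dot f x ≤ T := by
  induction t generalizing cs pend with
  | leaf m =>
    simp only [check] at h
    exact (leafOK_false cs m h x hx hc).elim
  | node c t ih =>
    simp only [check, Bool.and_eq_true] at h
    left
    rcases ih cs (some (forms c)) h.2 hc with h1 | ⟨l, hl, h1⟩
    · exact h1
    · rw [Option.some.injEq] at hl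
      subst hl
      exact ⟨c, h.1, h1⟩
  | br t r iht ihr =>
    rcases pend with _ | (_ | ⟨f, fs⟩)
    · simp [check] at h
    · simp [check] at h
    · simp only [check, Bool.and_eq_true] at h
      by_cases hf : dot f x ≤ T
      · rcases ihr cs (some fs) h.2 hc with h1 | ⟨l, hl, h1⟩
        · exact Or.inl h1
        · rw [Option.some.injEq] at hl
          subst hl
          right
          refine ⟨f :: fs, rfl, ?_⟩
          intro g hg
          rcases List.mem_cons.1 hg with rfl | hg
          · exact hf
          · exact h1 g hg
      · have hc' : ∀ c ∈ (f, T + 1) :: cs, c.2 ≤ dot c.1 x := by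
          intro c hc1
          rcases List.mem_cons.1 hc1 with rfl | hc1
          · simp only; omega
          · exact hc c hc1
        rcases iht _ none h.1 hc' with h1 | ⟨l, hl, _⟩
        · exact Or.inl h1
        · simp at hl
  | nil =>
    rcases pend with _ | (_ | ⟨f, fs⟩)
    · simp [check] at h
    · exact Or.inr ⟨[], rfl, by simp⟩
    · simp [check] at h

lemma check_good {α : Type} (forms : α → List (List ℤ)) (ok : α → Bool) (T : ℤ)
    (t : Tree α) (cs : List Con) (h : check forms ok T cs none t = true)
    (x : List ℤ) (hx : ∀ y ∈ x, 0 ≤ y) (hc : ∀ c ∈ cs, c.2 ≤ dot c.1 x) :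
    Good forms ok T x := by
  rcases check_sound forms ok T t cs none h x hx hc with h1 | ⟨l, hl, _⟩
  · exact h1
  · simp at hl

end Pool.Agent.Helper92.ABC
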