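import Mathlib
import Pool.Agent.Helper92.ABC.Defs
import Pool.Agent.Helper92.ABC.Cert

set_option autoImplicit false

/-!
# The tools and their forms
-/

namespace Pool.Agent.Helper92.ABC

open Finset

/-- The set of classes coded by the bits of `U`. -/
def toSet (U : ℕ) : Finset ℕ := (Finset.Icc 1 5).filter (fun i => U.testBit (i - 1) = true)

/-- Indicator of the bit of class `i`. -/
def bt (U i : ℕ) : ℤ := if U.testBit (i - 1) then 1 else 0

/-- Coefficients of the mass of the classes in `U`. -/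
def massL (U : ℕ) : List ℤ := [bt U 1, bt U 2, bt U 3, bt U 4, bt U 5, 0]

/-- Coefficients of `rc j (toSet U)`. -/
def costL (j U : ℕ) : List ℤ :=
  [bt U 1 * ((1 / j : ℕ) : ℤ), bt U 2 * ((2 / j : ℕ) : ℤ), bt U 3 * ((3 / j : ℕ) : ℤ),
    bt U 4 * ((4 / j : ℕ) : ℤ), bt U 5 * ((5 / j : ℕ) : ℤ), bt U 5]

/-- Tools. Sets of classes are coded by bit masks; `U0, U1, U2` are the fixed classes. -/
inductive Code where
  | triv (p q : ℕ)
  | pair (j p U0 U1 U2 : ℕ)
  | tri (j U0 U1 U2 : ℕ)

/-- Complement of a mask. -/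
def co (U : ℕ) : ℕ := 31 - U

/-- Twice the mass of the fixed classes. -/
def baseL (U0 U1 U2 : ℕ) : List ℤ :=
  smulL 2 (massL U0 ++ massL U1 ++ massL U2)

/-- The forms of a tool (twice the exponents). -/
def forms : Code → List (List ℤ)
  | .triv p q => [smulL 2 (massL (if p = 0 ∨ q = 0 then 31 else 0) ++
      massL (if p = 1 ∨ q = 1 then 31 else 0) ++ massL (if p = 2 ∨ q = 2 then 31 else 0))]
  | .pair j p U0 U1 U2 => [baseL U0 U1 U2, addL (baseL U0 U1 U2)
      (smulL 2 ((if p = 0 then smulL (-1) (costL 1 U0) else costL j (co U0)) ++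
        (if p = 1 then smulL (-1) (costL 1 U1) else costL j (co U1)) ++
        (if p = 2 then smulL (-1) (costL 1 U2) else costL j (co U2))))]
  | .tri j U0 U1 U2 => [baseL U0 U1 U2, addL (baseL U0 U1 U2)
      (smulL ((j : ℤ) + 1) (costL j (co U0)) ++
        addL (smulL (1 - (j : ℤ)) (costL j (co U1))) (smulL (-2) (costL 1 U1)) ++
        addL (costL j (co U2)) (smulL (-1) (costL 1 U2)))]

/-- All classes in the mask are below `5` and divisible by `j`. -/
def divs (j U : ℕ) : Bool :=
  (List.range 5).all (fun i => !(U.testBit i) || (decide (i + 1 < 5) && (i + 1) % j == 0))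

/-- Side conditions of the tools. -/
def ok : Code → Bool
  | .triv p q => decide (p < 3) && decide (q < 3) && decide (p ≠ q)
  | .pair j p U0 U1 U2 => decide (1 ≤ j) && decide (j ≤ 4) && decide (p < 3) &&
      decide (U0 < 32) && decide (U1 < 32) && decide (U2 < 32) &&
      (decide (j = 1) || ((decide (p = 0) || divs j (co U0)) && (decide (p = 1) || divs j (co U1))
        && (decide (p = 2) || divs j (co U2))))
  | .tri j U0 U1 U2 => decide (2 ≤ j) && decide (j ≤ 4) &&
      decide (U0 < 32) && decide (U1 < 32) && decide (U2 < 32) &&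
      divs j (co U0) && divs j (co U1) && divs j (co U2)

/-- The vector of the variables. -/
def vec1 (k : ℕ → ℕ) : List ℤ := [(k 1 : ℤ), k 2, k 3, k 4, k 5, k 6]

/-- The vector of all variables. -/
def vec (k : Fin 3 → ℕ → ℕ) : List ℤ := vec1 (k 0) ++ vec1 (k 1) ++ vec1 (k 2)

/-- The base constraints. -/
def base (Q W : ℕ) : List Con :=
  [(smulL (-1) (costL 1 31), -(Q : ℤ)),
   (massL 0 ++ smulL (-1) (costL 1 31), -(Q : ℤ)),
   (massL 0 ++ massL 0 ++ smulL (-1) (costL 1 31), -(Q : ℤ)),
   (massL 0 ++ costL 1 31, (Q : ℤ) - 20),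
   (massL 0 ++ massL 0 ++ costL 1 31, (Q : ℤ) - 20),
   (smulL (-1) (massL 31 ++ massL 31 ++ massL 31), -(W : ℤ))]

end Pool.Agent.Helper92.ABC
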