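import Mathlib
import Pool.Agent.Helper92.ABC.Codes

set_option autoImplicit false

/-!
# Meaning of the forms
-/

namespace Pool.Agent.Helper92.ABC

open Finset

lemma dot_append (f g x y : List ℤ) (h : f.length = x.length) :
    dot (f ++ g) (x ++ y) = dot f x + dot g y := by
  induction f generalizing x with
  | nil =>
    cases x with
    | nil => simp [dot]
    | cons a x => simp at h
  | cons a f ih =>
    cases x with
    | nil => simp at h
    | cons b x =>
      simp only [List.length_cons, Nat.add_right_cancel_iff] at h
      simp only [List.cons_append, dot, ih x h]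
      ring

lemma vec1_length (k : ℕ → ℕ) : (vec1 k).length = 6 := rfl

lemma massL_length (U : ℕ) : (massL U).length = 6 := rfl

lemma costL_length (j U : ℕ) : (costL j U).length = 6 := rfl

lemma smulL_length (c : ℤ) (f : List ℤ) : (smulL c f).length = f.length := by
  induction f with
  | nil => rfl
  | cons a f ih => simp [smulL, ih]

lemma addL_length (f g : List ℤ) (h : f.length = g.length) : (addL f g).length = f.length := by
  induction f generalizing g with
  | nil =>
    cases g with
    | nil => rfl
    | cons b g => simp at h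
  | cons a f ih =>
    cases g with
    | nil => simp at h
    | cons b g =>
      simp only [List.length_cons, Nat.add_right_cancel_iff] at h
      simp [addL, ih g h]

lemma dot_massL (U : ℕ) (k : ℕ → ℕ) : dot (massL U) (vec1 k) = ∑ i ∈ toSet U, (k i : ℤ) := by
  have h : Finset.Icc 1 5 = {1, 2, 3, 4, 5} := by decide
  rw [toSet, Finset.sum_filter, h]
  simp only [massL, vec1, dot, bt]
  rw [Finset.sum_insert (by decide), Finset.sum_insert (by decide), Finset.sum_insert (by decide),
    Finset.sum_insert (by decide), Finset.sum_singleton]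
  simp only [ite_mul, one_mul, zero_mul, add_zero]

lemma five_mem (U : ℕ) : 5 ∈ toSet U ↔ U.testBit 4 = true := by
  simp [toSet]

lemma dot_costL (j U : ℕ) (k : ℕ → ℕ) :
    dot (costL j U) (vec1 k) = (rc j (toSet U) k : ℤ) := by
  have h : Finset.Icc 1 5 = {1, 2, 3, 4, 5} := by decide
  have h5 := five_mem U
  rw [rc, Nat.cast_add, Nat.cast_sum, toSet, Finset.sum_filter, h]
  rw [toSet, h] at h5
  simp only [h5]
  simp only [costL, vec1, dot, bt]
  rw [Finset.sum_insert (by decide), Finset.sum_insert (by decide), Finset.sum_insert (by decide),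
    Finset.sum_insert (by decide), Finset.sum_singleton]
  simp only [ite_mul, one_mul, zero_mul, add_zero]
  push_cast
  split_ifs <;> ring

lemma toSet_sub (U : ℕ) : toSet U ⊆ full := Finset.filter_subset _ _

lemma toSet_co (U : ℕ) (hU : U < 32) : toSet (co U) = full \ toSet U := by
  interval_cases U <;> decide

lemma toSet_full : toSet 31 = full := by decide

lemma toSet_zero : toSet 0 = ∅ := by decide

lemma divs_spec (j U : ℕ) (h : divs j U = true) : ∀ i ∈ toSet U, i < 5 ∧ j ∣ i := by
  intro i hi
  simp only [toSet, Finset.mem_filter, Finset.mem_Icc] at hi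
  obtain ⟨⟨h1, h5⟩, hb⟩ := hi
  simp only [divs, List.all_eq_true, List.mem_range] at h
  have h2 := h (i - 1) (by omega)
  rw [hb] at h2
  simp only [Bool.not_true, Bool.false_or, Bool.and_eq_true, decide_eq_true_eq,
    beq_iff_eq] at h2
  have e : i - 1 + 1 = i := by omega
  rw [e] at h2
  exact ⟨h2.1, Nat.dvd_of_mod_eq_zero h2.2⟩

lemma dot_vec (f0 f1 f2 : List ℤ) (k : Fin 3 → ℕ → ℕ) (h0 : f0.length = 6)
    (h1 : f1.length = 6) :
    dot (f0 ++ f1 ++ f2) (vec k) = dot f0 (vec1 (k 0)) + dot f1 (vec1 (k 1)) +
      dot f2 (vec1 (k 2)) := by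
  rw [vec, dot_append, dot_append]
  · rw [h0, vec1_length]
  · rw [List.length_append, List.length_append, h0, h1, vec1_length, vec1_length]

lemma vec_nonneg (k : Fin 3 → ℕ → ℕ) : ∀ y ∈ vec k, 0 ≤ y := by
  intro y hy
  simp only [vec, vec1, List.mem_append, List.mem_cons, List.not_mem_nil, or_false] at hy
  rcases hy with (h | h) | h <;> rcases h with h | h | h | h | h | h <;> rw [h] <;> positivity

end Pool.Agent.Helper92.ABC
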