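import Mathlib
import Pool.Agent.Helper92.ABC.Sem
import Pool.Agent.Helper92.ABC.CertData
import Pool.Agent.Helper94.ABC.TV
import Pool.Agent.Helper29.ABC.TripleFiber
import Pool.Agent.Helper41.ABC.T3Core
import Pool.Agent.Helper26.ABC.PairTool

set_option autoImplicit false

/-!
# The bound for every admissible box
-/

namespace Pool.Agent.Helper92.ABC

open Finset

theorem tool_triple (ε : ℝ) (hε : 0 < ε) : ∃ C : ℝ, 0 < C ∧ ∀ (Z Q : ℕ) (k : Fin 3 → ℕ → ℕ)
    (j : ℕ) (U : Fin 3 → Finset ℕ), 2 ≤ Z → 2 ≤ j → j ≤ 4 → (∀ n, U n ⊆ full) →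
    (∀ n, ∀ i ∈ full \ U n, i < 5 ∧ j ∣ i) →
    ((Box Z Q k).card : ℝ) ≤ C * ((Z : ℝ) ^ Q) ^ ε * (Z : ℝ) ^ (∑ n, wt (U n) (k n)) *
      (1 + (Z : ℝ) ^ ((((j : ℝ) + 1) * rc j (full \ U 0) (k 0)
        - ((j : ℝ) - 1) * rc j (full \ U 1) (k 1) + rc j (full \ U 2) (k 2)
        - 2 * rc 1 (U 1) (k 1) - rc 1 (U 2) (k 2) + 40) / 2)) :=
  Pool.Agent.Helper41.ABC.tool_triple_of part_mul_part radn_part part_eq_rootp_pow rpart_upper rootp_lower rootp_upper
    card_radn_le triple_fiber ε hε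

/-- The linear programming fact: some tool is good. -/
theorem lp_good (k : Fin 3 → ℕ → ℕ) (h : ∀ n, rc 1 full (k n) ≤ 10000000)
    (h1 : 10000000 ≤ rc 1 full (k 1) + 20) (h2 : 10000000 ≤ rc 1 full (k 2) + 20)
    (hW : ∑ n, ∑ i ∈ full, k n i ≤ 10010000) : Good forms ok 12056000 (vec k) := by
  apply check_good forms ok 12056000 tree (base 10000000 10010000) tree_check _ (vec_nonneg k)
  have h0 := h 0
  have h1' := h 1
  have h2' := h 2
  have z : ∀ k : ℕ → ℕ, dot (massL 0) (vec1 k) = 0 := by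
    intro k
    rw [dot_massL, toSet_zero, Finset.sum_empty]
  intro c hc
  simp only [base, List.mem_cons, List.not_mem_nil, or_false] at hc
  rcases hc with rfl | rfl | rfl | rfl | rfl | rfl
  · have e : dot (smulL (-1) (costL 1 31)) (vec k) = - (rc 1 full (k 0) : ℤ) := by
      have := dot_vec (smulL (-1) (costL 1 31)) (massL 0) (massL 0) k rfl rfl
      rw [dot_smulL, dot_costL, toSet_full, z, z] at this
      rw [← show dot (smulL (-1) (costL 1 31) ++ massL 0 ++ massL 0) (vec k) =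
        dot (smulL (-1) (costL 1 31)) (vec k) by
          simp [vec, vec1, costL, smulL, massL, bt, dot], this]
      ring
    simp only
    rw [e]
    omega
  · have e : dot (massL 0 ++ smulL (-1) (costL 1 31)) (vec k) = - (rc 1 full (k 1) : ℤ) := by
      have := dot_vec (massL 0) (smulL (-1) (costL 1 31)) (massL 0) k rfl rfl
      rw [dot_smulL, dot_costL, toSet_full, z, z] at this
      rw [← show dot (massL 0 ++ smulL (-1) (costL 1 31) ++ massL 0) (vec k) =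
        dot (massL 0 ++ smulL (-1) (costL 1 31)) (vec k) by
          simp [vec, vec1, costL, smulL, massL, bt, dot], this]
      ring
    simp only
    rw [e]
    omega
  · have := dot_vec (massL 0) (massL 0) (smulL (-1) (costL 1 31)) k rfl rfl
    rw [dot_smulL, dot_costL, toSet_full, z, z] at this
    simp only
    rw [this]
    omega
  · have e : dot (massL 0 ++ costL 1 31) (vec k) = (rc 1 full (k 1) : ℤ) := by
      have := dot_vec (massL 0) (costL 1 31) (massL 0) k rfl rfl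
      rw [dot_costL, toSet_full, z, z] at this
      rw [← show dot (massL 0 ++ costL 1 31 ++ massL 0) (vec k) =
        dot (massL 0 ++ costL 1 31) (vec k) by
          simp [vec, vec1, costL, massL, bt, dot], this]
      ring
    simp only
    rw [e]
    omega
  · have := dot_vec (massL 0) (massL 0) (costL 1 31) k rfl rfl
    rw [dot_costL, toSet_full, z, z] at this
    simp only
    rw [this]
    omega
  · have := dot_vec (massL 31) (massL 31) (massL 31) k rfl rfl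
    rw [dot_massL, dot_massL, dot_massL, toSet_full] at this
    simp only
    rw [dot_smulL, this]
    rw [Fin.sum_univ_three] at hW
    have hW' : (∑ i ∈ full, (k 0 i : ℤ)) + ∑ i ∈ full, (k 1 i : ℤ) + ∑ i ∈ full, (k 2 i : ℤ) ≤
        10010000 := by exact_mod_cast hW
    push_cast
    linarith

lemma wt_le (S : Finset ℕ) (hS : S ⊆ full) (k : ℕ → ℕ) : wt S k ≤ ∑ i ∈ S, k i + 5 := by
  rw [wt, Finset.sum_add_distrib]
  have : ∑ i ∈ S, 1 ≤ 5 := by
    rw [Finset.sum_const, smul_eq_mul, mul_one]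
    exact (Finset.card_le_card hS).trans (by decide)
  omega

lemma real_key (Z C B : ℝ) (hZ : 1 ≤ Z) (hC : 0 ≤ C) (N : ℕ) (E : ℝ) (hN : (N : ℝ) ≤ B)
    (hE : (N : ℝ) + E ≤ B) : C * Z * Z ^ N * (1 + Z ^ E) ≤ 2 * C * Z ^ (B + 1) := by
  have hZ0 : 0 < Z := by linarith
  have e1 : Z ^ (B + 1) = Z * Z ^ B := by
    rw [Real.rpow_add hZ0, Real.rpow_one, mul_comm]
  have e2 : Z ^ N = Z ^ (N : ℝ) := (Real.rpow_natCast Z N).symm
  have e3 : Z ^ (N : ℝ) * Z ^ E = Z ^ ((N : ℝ) + E) := (Real.rpow_add hZ0 _ _).symm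
  have h1 : Z ^ (N : ℝ) ≤ Z ^ B := Real.rpow_le_rpow_of_exponent_le hZ hN
  have h2 : Z ^ ((N : ℝ) + E) ≤ Z ^ B := Real.rpow_le_rpow_of_exponent_le hZ hE
  calc C * Z * Z ^ N * (1 + Z ^ E) = C * Z * (Z ^ (N : ℝ) + Z ^ (N : ℝ) * Z ^ E) := by
        rw [e2]; ring
    _ = C * Z * (Z ^ (N : ℝ) + Z ^ ((N : ℝ) + E)) := by rw [e3]
    _ ≤ C * Z * (Z ^ B + Z ^ B) := by
        apply mul_le_mul_of_nonneg_left (by linarith) (by positivity)
    _ = 2 * C * Z ^ (B + 1) := by rw [e1]; ring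

lemma sel_two (S : Fin 3 → ℤ) (P R : Fin 3) (h : P ≠ R) :
    (if P.val = 0 ∨ R.val = 0 then S 0 else 0) + (if P.val = 1 ∨ R.val = 1 then S 1 else 0) +
      (if P.val = 2 ∨ R.val = 2 then S 2 else 0) = S P + S R := by
  fin_cases P <;> fin_cases R <;> simp at h ⊢ <;> ring

lemma dot_mass_if (b : Prop) [Decidable b] (k : ℕ → ℕ) :
    dot (massL (if b then 31 else 0)) (vec1 k) = if b then ∑ i ∈ full, (k i : ℤ) else 0 := by
  split_ifs
  · rw [dot_massL, toSet_full]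
  · rw [dot_massL, toSet_zero, Finset.sum_empty]

/-- Bound for an admissible box. -/
theorem box_bound : ∃ C : ℝ, ∀ (Z : ℕ) (k : Fin 3 → ℕ → ℕ), 2 ≤ Z →
    (∀ n, rc 1 full (k n) ≤ 10000000) → 10000000 ≤ rc 1 full (k 1) + 20 →
    10000000 ≤ rc 1 full (k 2) + 20 → ∑ n, ∑ i ∈ full, k n i ≤ 10010000 →
    ((Box Z 10000000 k).card : ℝ) ≤ C * (Z : ℝ) ^ ((603 / 1000 : ℝ) * (10000000 : ℕ)) := by
  obtain ⟨C1, hC1, t1⟩ := tool_triv (1 / 10000000) (by norm_num)
  obtain ⟨C2, hC2, t2⟩ := tool_pair (1 / 10000000) (by norm_num)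
  obtain ⟨C3, hC3, t3⟩ := tool_triple (1 / 10000000) (by norm_num)
  refine ⟨2 * (C1 + C2 + C3), ?_⟩
  intro Z k hZ h h1 h2 hW
  have hZ1 : (1 : ℝ) ≤ Z := by exact_mod_cast (by omega : 1 ≤ Z)
  have hZ0 : (0 : ℝ) < Z := by linarith
  have hQ : ((Z : ℝ) ^ 10000000) ^ ((1 : ℝ) / 10000000) = Z := by
    rw [← Real.rpow_natCast, ← Real.rpow_mul hZ0.le]
    norm_num
  -- the target
  have key : ∀ C : ℝ, 0 ≤ C → C ≤ C1 + C2 + C3 → ∀ (N : ℕ) (E : ℝ), (N : ℝ) ≤ 6028015 →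
      (N : ℝ) + E ≤ 6028063 → C * ((Z : ℝ) ^ 10000000) ^ ((1 : ℝ) / 10000000) * (Z : ℝ) ^ N *
        (1 + (Z : ℝ) ^ E) ≤
        2 * (C1 + C2 + C3) * (Z : ℝ) ^ ((603 / 1000 : ℝ) * (10000000 : ℕ)) := by
    intro C hC hC' N E hN hE
    rw [hQ]
    refine (real_key Z C 6028063 hZ1 hC N E (by linarith) hE).trans ?_
    have h3 : (Z : ℝ) ^ ((6028063 : ℝ) + 1) ≤
        (Z : ℝ) ^ ((603 / 1000 : ℝ) * (10000000 : ℕ)) :=
      Real.rpow_le_rpow_of_exponent_le hZ1 (by norm_num)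
    exact mul_le_mul (by linarith) h3 (by positivity) (by linarith)
  obtain ⟨c, hok, hf⟩ := lp_good k h h1 h2 hW
  cases c with
  | triv p q =>
    simp only [ok, Bool.and_eq_true, decide_eq_true_eq] at hok
    obtain ⟨⟨hp, hq⟩, hpq⟩ := hok
    have hf1 := hf _ (List.mem_singleton.2 rfl)
    rw [dot_smulL, dot_vec _ _ _ _ rfl rfl] at hf1
    refine (t1 Z 10000000 k ⟨p, hp⟩ ⟨q, hq⟩ hZ (by simpa using hpq)).trans ?_
    have hwp := wt_le full subset_rfl (k ⟨p, hp⟩)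
    have hwq := wt_le full subset_rfl (k ⟨q, hq⟩)
    have hsum : (∑ i ∈ full, (k ⟨p, hp⟩ i : ℤ)) + ∑ i ∈ full, (k ⟨q, hq⟩ i : ℤ) ≤ 6028000 := by
      rw [dot_mass_if, dot_mass_if, dot_mass_if] at hf1
      have h6 := sel_two (fun n => ∑ i ∈ full, (k n i : ℤ)) ⟨p, hp⟩ ⟨q, hq⟩ (by simpa using hpq)
      simp only at h6
      rw [h6] at hf1
      linarith
    have hN : wt full (k ⟨p, hp⟩) + wt full (k ⟨q, hq⟩) ≤ 6028010 := by
      have : ∑ i ∈ full, k ⟨p, hp⟩ i + ∑ i ∈ full, k ⟨q, hq⟩ i ≤ 6028000 := by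
        exact_mod_cast hsum
      omega
    have h5 := key C1 hC1.le (by linarith) (wt full (k ⟨p, hp⟩) + wt full (k ⟨q, hq⟩)) 0
      (by exact_mod_cast hN.trans (by norm_num)) (by
        have : ((wt full (k ⟨p, hp⟩) + wt full (k ⟨q, hq⟩) : ℕ) : ℝ) ≤ 6028010 := by
          exact_mod_cast hN
        linarith)
    refine le_trans ?_ h5
    apply le_mul_of_one_le_right
    · positivity
    · rw [Real.rpow_zero]
      norm_num
  | pair j p U0 U1 U2 =>
    simp only [ok, Bool.and_eq_true, Bool.or_eq_true, decide_eq_true_eq] at hok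
    obtain ⟨⟨⟨⟨⟨⟨hj1, hj4⟩, hp⟩, hU0⟩, hU1⟩, hU2⟩, hdv⟩ := hok
    set U : Fin 3 → Finset ℕ := ![toSet U0, toSet U1, toSet U2] with hU
    have hUf : ∀ n, U n ⊆ full := by
      intro n
      fin_cases n <;> exact toSet_sub _
    have c0 := toSet_co U0 hU0
    have c1 := toSet_co U1 hU1
    have c2 := toSet_co U2 hU2
    have hf1 := hf _ (List.mem_cons_self ..)
    have hf2 := hf _ (List.mem_cons_of_mem _ (List.mem_singleton.2 rfl))
    rw [baseL, dot_smulL, dot_vec _ _ _ _ rfl rfl, dot_massL, dot_massL, dot_massL] at hf1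
    rw [dot_addL, baseL, dot_smulL, dot_smulL, dot_vec _ _ _ _ rfl rfl, dot_massL, dot_massL,
      dot_massL] at hf2
    have hw0 := wt_le (toSet U0) (toSet_sub _) (k 0)
    have hw1 := wt_le (toSet U1) (toSet_sub _) (k 1)
    have hw2 := wt_le (toSet U2) (toSet_sub _) (k 2)
    have hwsum : ∑ n, wt (U n) (k n) = wt (toSet U0) (k 0) + wt (toSet U1) (k 1) +
        wt (toSet U2) (k 2) := by
      rw [Fin.sum_univ_three]; rfl
    have hs : (∑ i ∈ toSet U0, (k 0 i : ℤ)) + ∑ i ∈ toSet U1, (k 1 i : ℤ) +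
        ∑ i ∈ toSet U2, (k 2 i : ℤ) ≤ 6028000 := by linarith
    have hs' : ∑ i ∈ toSet U0, k 0 i + ∑ i ∈ toSet U1, k 1 i + ∑ i ∈ toSet U2, k 2 i ≤
        6028000 := by exact_mod_cast hs
    have hN : ∑ n, wt (U n) (k n) ≤ 6028015 := by
      rw [hwsum]; omega
    have hNr : ((∑ n, wt (U n) (k n) : ℕ) : ℝ) ≤ 6028015 := by exact_mod_cast hN
    have hNi : ((∑ n, wt (U n) (k n) : ℕ) : ℤ) ≤ (∑ i ∈ toSet U0, (k 0 i : ℤ)) +
        ∑ i ∈ toSet U1, (k 1 i : ℤ) + ∑ i ∈ toSet U2, (k 2 i : ℤ) + 15 := by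
      rw [hwsum]
      have : wt (toSet U0) (k 0) + wt (toSet U1) (k 1) + wt (toSet U2) (k 2) ≤
        ∑ i ∈ toSet U0, k 0 i + ∑ i ∈ toSet U1, k 1 i + ∑ i ∈ toSet U2, k 2 i + 15 := by omega
      exact_mod_cast this
    have hA : ∀ (b : Prop) [Decidable b] (V : ℕ) (n : Fin 3),
        dot (if b then smulL (-1) (costL 1 V) else costL j (co V)) (vec1 (k n)) =
          if b then -(rc 1 (toSet V) (k n) : ℤ) else (rc j (toSet (co V)) (k n) : ℤ) := by
      intro b _ V n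
      split_ifs
      · rw [dot_smulL, dot_costL]; ring
      · rw [dot_costL]
    rw [dot_vec _ _ _ _ (by split_ifs <;> rfl) (by split_ifs <;> rfl), hA, hA, hA,
      c0, c1, c2] at hf2
    have hd0 : p = 0 ∨ (j = 1 ∨ ∀ i ∈ full \ U 0, i < 5 ∧ j ∣ i) := by
      rcases hdv with h | ⟨⟨h | h, _⟩, _⟩
      · exact Or.inr (Or.inl h)
      · exact Or.inl h
      · right; right
        have := divs_spec _ _ h
        rwa [c0] at this
    have hd1 : p = 1 ∨ (j = 1 ∨ ∀ i ∈ full \ U 1, i < 5 ∧ j ∣ i) := by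
      rcases hdv with h | ⟨⟨_, h | h⟩, _⟩
      · exact Or.inr (Or.inl h)
      · exact Or.inl h
      · right; right
        have := divs_spec _ _ h
        rwa [c1] at this
    have hd2 : p = 2 ∨ (j = 1 ∨ ∀ i ∈ full \ U 2, i < 5 ∧ j ∣ i) := by
      rcases hdv with h | ⟨_, h | h⟩
      · exact Or.inr (Or.inl h)
      · exact Or.inl h
      · right; right
        have := divs_spec _ _ h
        rwa [c2] at this
    have fin : ∀ P Q' R : Fin 3, P ≠ Q' → P ≠ R → Q' ≠ R →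
        (j = 1 ∨ ∀ i ∈ full \ U Q', i < 5 ∧ j ∣ i) →
        (j = 1 ∨ ∀ i ∈ full \ U R, i < 5 ∧ j ∣ i) →
        (((∑ i ∈ toSet U0, (k 0 i : ℤ)) + ∑ i ∈ toSet U1, (k 1 i : ℤ) +
          ∑ i ∈ toSet U2, (k 2 i : ℤ)) + ((rc j (full \ U Q') (k Q') : ℤ) +
            rc j (full \ U R) (k R) - rc 1 (U P) (k P)) ≤ 6028000) →
        ((Box Z 10000000 k).card : ℝ) ≤ 2 * (C1 + C2 + C3) *
          (Z : ℝ) ^ ((603 / 1000 : ℝ) * (10000000 : ℕ)) := by
      intro P Q' R hPQ hPR hQR hdQ hdR hle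
      refine (t2 Z 10000000 k j P Q' R U hZ hj1 hj4 hPQ hPR hQR hUf hdQ hdR).trans ?_
      rw [← Real.rpow_intCast]
      apply key C2 hC2.le (by linarith) _ _ hNr
      have : ((∑ n, wt (U n) (k n) : ℕ) : ℤ) + ((rc j (full \ U Q') (k Q') : ℤ) +
            rc j (full \ U R) (k R) - rc 1 (U P) (k P) + 48) ≤ 6028063 := by linarith
      exact_mod_cast this
    have hp3 : p = 0 ∨ p = 1 ∨ p = 2 := by omega
    rcases hp3 with rfl | rfl | rfl
    · apply fin 0 1 2 (by decide) (by decide) (by decide) (by simpa using hd1)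
        (by simpa using hd2)
      simp only [if_true, if_false, zero_ne_one, OfNat.zero_ne_ofNat] at hf2
      change _ + ((rc j (full \ toSet U1) (k 1) : ℤ) + rc j (full \ toSet U2) (k 2) -
        rc 1 (toSet U0) (k 0)) ≤ _
      linarith
    · apply fin 1 0 2 (by decide) (by decide) (by decide) (by simpa using hd0)
        (by simpa using hd2)
      simp only [if_true, if_false, one_ne_zero, OfNat.one_ne_ofNat] at hf2
      change _ + ((rc j (full \ toSet U0) (k 0) : ℤ) + rc j (full \ toSet U2) (k 2) -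
        rc 1 (toSet U1) (k 1)) ≤ _
      linarith
    · apply fin 2 0 1 (by decide) (by decide) (by decide) (by simpa using hd0)
        (by simpa using hd1)
      simp only [if_true, if_false, OfNat.ofNat_ne_zero, OfNat.ofNat_ne_one] at hf2
      change _ + ((rc j (full \ toSet U0) (k 0) : ℤ) + rc j (full \ toSet U1) (k 1) -
        rc 1 (toSet U2) (k 2)) ≤ _
      linarith
  | tri j U0 U1 U2 =>
    simp only [ok, Bool.and_eq_true, decide_eq_true_eq] at hok
    obtain ⟨⟨⟨⟨⟨⟨⟨hj2, hj4⟩, hU0⟩, hU1⟩, hU2⟩, hd0⟩, hd1⟩, hd2⟩ := hok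
    set U : Fin 3 → Finset ℕ := ![toSet U0, toSet U1, toSet U2] with hU
    have hUf : ∀ n, U n ⊆ full := by
      intro n
      fin_cases n <;> exact toSet_sub _
    have c0 := toSet_co U0 hU0
    have c1 := toSet_co U1 hU1
    have c2 := toSet_co U2 hU2
    have hf1 := hf _ (List.mem_cons_self ..)
    have hf2 := hf _ (List.mem_cons_of_mem _ (List.mem_singleton.2 rfl))
    rw [baseL, dot_smulL, dot_vec _ _ _ _ rfl rfl, dot_massL, dot_massL, dot_massL] at hf1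
    rw [dot_addL, baseL, dot_smulL, dot_vec _ _ _ _ rfl rfl, dot_massL, dot_massL,
      dot_massL, dot_vec _ _ _ _ (by rw [smulL_length]; rfl)
        (by rw [addL_length] <;> simp only [smulL_length] <;> rfl),
      dot_smulL, dot_addL, dot_smulL, dot_smulL, dot_addL, dot_smulL, dot_costL, dot_costL,
      dot_costL, dot_costL, dot_costL, c0, c1, c2] at hf2
    have hw0 := wt_le (toSet U0) (toSet_sub _) (k 0)
    have hw1 := wt_le (toSet U1) (toSet_sub _) (k 1)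
    have hw2 := wt_le (toSet U2) (toSet_sub _) (k 2)
    have hwsum : ∑ n, wt (U n) (k n) = wt (toSet U0) (k 0) + wt (toSet U1) (k 1) +
        wt (toSet U2) (k 2) := by
      rw [Fin.sum_univ_three]; rfl
    have hs : (∑ i ∈ toSet U0, (k 0 i : ℤ)) + ∑ i ∈ toSet U1, (k 1 i : ℤ) +
        ∑ i ∈ toSet U2, (k 2 i : ℤ) ≤ 6028000 := by linarith
    have hs' : ∑ i ∈ toSet U0, k 0 i + ∑ i ∈ toSet U1, k 1 i + ∑ i ∈ toSet U2, k 2 i ≤
        6028000 := by exact_mod_cast hs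
    have hN : ∑ n, wt (U n) (k n) ≤ 6028015 := by
      rw [hwsum]; omega
    have hNr : ((∑ n, wt (U n) (k n) : ℕ) : ℝ) ≤ 6028015 := by exact_mod_cast hN
    have hNi : ((∑ n, wt (U n) (k n) : ℕ) : ℤ) ≤ (∑ i ∈ toSet U0, (k 0 i : ℤ)) +
        ∑ i ∈ toSet U1, (k 1 i : ℤ) + ∑ i ∈ toSet U2, (k 2 i : ℤ) + 15 := by
      rw [hwsum]
      have : wt (toSet U0) (k 0) + wt (toSet U1) (k 1) + wt (toSet U2) (k 2) ≤
        ∑ i ∈ toSet U0, k 0 i + ∑ i ∈ toSet U1, k 1 i + ∑ i ∈ toSet U2, k 2 i + 15 := by omega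
      exact_mod_cast this
    have hd : ∀ n, ∀ i ∈ full \ U n, i < 5 ∧ j ∣ i := by
      intro n
      fin_cases n
      · have := divs_spec _ _ hd0
        rwa [c0] at this
      · have := divs_spec _ _ hd1
        rwa [c1] at this
      · have := divs_spec _ _ hd2
        rwa [c2] at this
    refine (t3 Z 10000000 k j U hZ hj2 hj4 hUf hd).trans ?_
    apply key C3 hC3.le (by linarith) _ _ hNr
    change _ + (((j : ℝ) + 1) * rc j (full \ toSet U0) (k 0)
        - ((j : ℝ) - 1) * rc j (full \ toSet U1) (k 1) + rc j (full \ toSet U2) (k 2)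
        - 2 * rc 1 (toSet U1) (k 1) - rc 1 (toSet U2) (k 2) + 40) / 2 ≤ _
    have hf2r : (2 : ℝ) * ((∑ i ∈ toSet U0, (k 0 i : ℝ)) + ∑ i ∈ toSet U1, (k 1 i : ℝ) +
        ∑ i ∈ toSet U2, (k 2 i : ℝ)) + (((j : ℝ) + 1) * rc j (full \ toSet U0) (k 0) +
        ((1 - (j : ℝ)) * rc j (full \ toSet U1) (k 1) + -2 * rc 1 (toSet U1) (k 1)) +
        (rc j (full \ toSet U2) (k 2) + -1 * rc 1 (toSet U2) (k 2))) ≤ 12056000 := by
      exact_mod_cast hf2
    have hNir : ((∑ n, wt (U n) (k n) : ℕ) : ℝ) ≤ (∑ i ∈ toSet U0, (k 0 i : ℝ)) +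
        ∑ i ∈ toSet U1, (k 1 i : ℝ) + ∑ i ∈ toSet U2, (k 2 i : ℝ) + 15 := by
      exact_mod_cast hNi
    linarith

end Pool.Agent.Helper92.ABC
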